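import Pool.Agent.Helper20_TWS.Stmts
import Pool.Agent.Helper29_TOR.If3

/-! W_surface: modules NDG, UNI, ORT, HND (intersection form by counting). -/

set_option autoImplicit false

namespace Pool.Agent.TWS.H29

open Pool.Agent.TOR Pool.Agent.TWS Pool.Agent.TOR.H29

open scoped BigOperators

theorem cls_eq {n : ℕ} (k : Fn n) : cls k = fun a => ((ev k a : ℤ) : ℚ) := by
  induction k using FreeGroup.induction_on with
  | C1 =>
    funext a
    rw [ev_one]
    unfold cls; rw [_root_.map_one]; simp
  | of b =>
    funext a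
    rw [ev_of]
    unfold cls hc; rw [FreeGroup.lift_apply_of, toAdd_ofAdd]
    by_cases h : a = b
    · subst h; simp
    · rw [Pi.single_eq_of_ne h, Pi.single_eq_of_ne h]; simp
  | inv_of b h =>
    have h1 : cls (FreeGroup.of b : Fn n)⁻¹ = - cls (FreeGroup.of b) := by
      unfold cls; rw [_root_.map_inv]; rfl
    rw [h1, h]
    funext a
    rw [ev_inv]; simp
  | mul x y hx hy =>
    have h1 : cls (x * y) = cls x + cls y := by
      unfold cls; rw [_root_.map_mul]; rfl
    rw [h1, hx, hy]
    funext a
    rw [ev_mul]; simp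

theorem omf_apply {n : ℕ} (e f : Hn n) :
    omf n e f = ∑ j : Fin n, (e (1, j) * f (0, j) - e (0, j) * f (1, j)) := rfl

theorem omf_cls {n : ℕ} (k m : Fn n) : omf n (cls k) (cls m) = - ((sf (ev k) (ev m) : ℤ) : ℚ) := by
  rw [omf_apply, cls_eq, cls_eq]
  unfold sf
  push_cast
  rw [← Finset.sum_neg_distrib]
  refine Finset.sum_congr rfl fun j _ => ?_
  ring

theorem ndg : NdgS := by
  intro n
  constructor
  · intro e
    rw [omf_apply]
    refine Finset.sum_eq_zero fun j _ => ?_
    ring
  · intro e h
    funext a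
    obtain ⟨c, j⟩ := a
    fin_cases c
    · have := h (Pi.single (1, j) 1)
      rw [omf_apply, Finset.sum_eq_single j] at this
      · simpa using this
      · intro b _ hb
        have h0 : ((0 : Fin 2), b) ≠ (1, j) := fun h => hb (congrArg Prod.snd h)
        have h1 : ((1 : Fin 2), b) ≠ (1, j) := fun h => hb (congrArg Prod.snd h)
        rw [Pi.single_eq_of_ne h0, Pi.single_eq_of_ne h1]; ring
      · intro hj; exact absurd (Finset.mem_univ j) hj
    · have := h (Pi.single (0, j) 1)
      rw [omf_apply, Finset.sum_eq_single j] at this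
      · simpa using this
      · intro b _ hb
        have h0 : ((0 : Fin 2), b) ≠ (0, j) := fun h => hb (congrArg Prod.snd h)
        have h1 : ((1 : Fin 2), b) ≠ (0, j) := fun h => hb (congrArg Prod.snd h)
        rw [Pi.single_eq_of_ne h0, Pi.single_eq_of_ne h1]; ring
      · intro hj; exact absurd (Finset.mem_univ j) hj

theorem uni : UniS := by
  intro n i x y hc
  rw [show cla x = cls x.1 from rfl, show cla y = cls y.1 from rfl, omf_cls]
  by_cases h : sf (ev x.1) (ev y.1) = 0
  · left; rw [h]; simp
  rcases hnd_of_sf x.2 y.2 (i := i) hc h with h1 | h1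
  · have h2 := sf_hnd h1
    rw [ev_inv, sf_neg_right] at h2
    right; left
    have h3 : sf (ev x.1) (ev y.1) = -1 := by omega
    rw [h3]; norm_num
  · have h2 := sf_hnd h1
    rw [ev_inv, sf_neg_right, sf_swap] at h2
    right; right
    have h3 : sf (ev x.1) (ev y.1) = 1 := by omega
    rw [h3]; norm_num

theorem ort : OrtS := by
  intro n i j x y hij hc
  rw [show cla x = cls x.1 from rfl, show cla y = cls y.1 from rfl, omf_cls,
    sf_cmp hij hc]
  simp

theorem hnd : HndS := by
  intro n
  constructor
  · intro x y hc h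
    rw [show cla x = cls x.1 from rfl, show cla y = cls y.1 from rfl, omf_cls] at h
    have h0 : sf (ev x.1) (ev y.1) = -1 := by
      have : ((sf (ev x.1) (ev y.1) : ℤ) : ℚ) = ((-1 : ℤ) : ℚ) := by push_cast; linarith
      exact_mod_cast this
    rcases hnd_of_sf x.2 y.2 (i := 0) hc (by omega) with h1 | h1
    · exact h1
    · exfalso
      have h2 := sf_hnd h1
      rw [ev_inv, sf_neg_right, sf_swap] at h2
      omega
  · intro k l h
    rw [omf_cls, ev_inv, sf_neg_right, sf_hnd h]
    norm_num

end Pool.Agent.TWS.H29
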